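import Pool.Agent.MWV.Stmts

namespace Pool.Agent.MWV.H97

open Pool.Agent.MWV

theorem cov (h1 : PpmStmt) (h2 : DcbStmt) (h3 : NobStmt) (h4 : OrdStmt) : CovStmt := by
  intro N S P Q g k d m1 m2 m3 H hd hS hlen
  obtain ⟨hperm, hpm, hp0, hp2⟩ := h1 k P Q H.kp H.pm
  have hk : 1 ≤ k := H.kp
  obtain ⟨L1, hL1, hOk, -⟩ := h2 N S P Q g k d _ H hd hS
  have hL : m1 ++ (3 * d) :: (m2 ++ (3 * d) :: m3) = L1 := by
    unfold W at hL1
    have := List.append_cancel_left hL1
    simp only [List.cons.injEq, true_and] at this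
    exact List.append_cancel_right this
  rw [← hL] at hOk
  have hmemP : ∀ i, i ∈ PP k P ++ PP k Q ↔ i < k + 3 := by
    intro i; rw [hperm.mem_iff]; simp
  have hcnt : ∀ i, i ≤ k + 2 →
      m1.count (3 * i + 1) + m2.count (3 * i + 1) + m3.count (3 * i + 1) = 1 := by
    intro i hi
    have := hOk.one i ((hmemP i).2 (by omega))
    have hne : ¬ (3 * d = 3 * i + 1) := by omega
    simp only [List.count_append, List.count_cons, beq_iff_eq, hne, if_false] at this
    omega
  -- claim 1
  have c1 : ∀ j, d < j → j ≤ k + 2 → ∀ u v, m1 ++ (3 * d) :: (m2 ++ (3 * d) :: m3) =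
      u ++ (3 * j + 1) :: v → 3 * d + 1 ∈ u := by
    intro j hj hj2 u v huv
    refine h4 N S P Q g k d d j u v H hd hj hj2 ?_ (by rw [← huv]; exact hS)
    intro _
    left
    rcases Nat.eq_zero_or_pos d with h0 | h0
    · rw [h0]
    · have : d = 1 := by omega
      rw [this]
      have := (hpm 0 (by omega)).1
      simp only [Nat.zero_add] at this
      rw [this, hp0]
  have c2 : ∀ j, j < k + 1 + d → ∀ u v, m1 ++ (3 * d) :: (m2 ++ (3 * d) :: m3) =
      u ++ (3 * (k + 1 + d) + 1) :: v → 3 * j + 1 ∈ u := by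
    intro j hj u v huv
    refine h4 N S P Q g k d j (k + 1 + d) u v H hd hj (by omega) ?_ (by rw [← huv]; exact hS)
    intro hh
    right
    rw [hh]
    rcases Nat.eq_zero_or_pos d with h0 | h0
    · rw [h0]
      have := (hpm k le_rfl).1
      simp only [Nat.add_zero]
      rw [this, hp2]
    · have : d = 1 := by omega
      rw [this]
  have c1a : ∀ j, d < j → j ≤ k + 2 → 3 * j + 1 ∈ m1 → 3 * d + 1 ∈ m1 := by
    intro j hj hj2 hm
    obtain ⟨u, v, rfl⟩ := List.append_of_mem hm
    have := c1 j hj hj2 u (v ++ (3 * d) :: (m2 ++ (3 * d) :: m3)) (by simp)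
    exact List.mem_append_left _ this
  have c1b : ∀ j, d < j → j ≤ k + 2 → 3 * j + 1 ∈ m2 → 3 * d + 1 ∈ m1 ∨ 3 * d + 1 ∈ m2 := by
    intro j hj hj2 hm
    obtain ⟨u, v, rfl⟩ := List.append_of_mem hm
    have := c1 j hj hj2 (m1 ++ (3 * d) :: u) (v ++ (3 * d) :: m3) (by simp)
    simp only [List.mem_append, List.mem_cons] at this ⊢
    rcases this with h | h | h
    · exact Or.inl h
    · omega
    · exact Or.inr (Or.inl h)
  have c2a : ∀ j, j < k + 1 + d → 3 * (k + 1 + d) + 1 ∈ m1 → 3 * j + 1 ∈ m1 := by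
    intro j hj hm
    obtain ⟨u, v, rfl⟩ := List.append_of_mem hm
    have := c2 j hj u (v ++ (3 * d) :: (m2 ++ (3 * d) :: m3)) (by simp)
    exact List.mem_append_left _ this
  have c2b : ∀ j, j < k + 1 + d → 3 * (k + 1 + d) + 1 ∈ m2 →
      3 * j + 1 ∈ m1 ∨ 3 * j + 1 ∈ m2 := by
    intro j hj hm
    obtain ⟨u, v, rfl⟩ := List.append_of_mem hm
    have := c2 j hj (m1 ++ (3 * d) :: u) (v ++ (3 * d) :: m3) (by simp)
    simp only [List.mem_append, List.mem_cons] at this ⊢
    rcases this with h | h | h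
    · exact Or.inl h
    · omega
    · exact Or.inr (Or.inl h)
  have nb1 : 3 * d + 1 ∈ m1 → 3 * (k + 1 + d) + 1 ∈ m2 ∨ 3 * (k + 1 + d) + 1 ∈ m3 → False := by
    intro ha hb
    refine h3 N S P Q g k d m1 (m2 ++ (3 * d) :: m3) H hd hS ha ?_
    rcases hb with hb | hb
    · exact List.mem_append_left _ hb
    · exact List.mem_append_right _ (List.mem_cons_of_mem _ hb)
  have nb2 : 3 * d + 1 ∈ m2 → 3 * (k + 1 + d) + 1 ∈ m3 → False := by
    intro ha hb
    refine h3 N S P Q g k d (m1 ++ (3 * d) :: m2) m3 H hd (by simpa using hS) ?_ hb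
    exact List.mem_append_right _ (List.mem_cons_of_mem _ ha)
  -- one light only
  have single : ∀ q, q ≤ k + 2 → (∀ i, i ≤ k + 2 → 3 * i + 1 ∈ m2 → i = q) → False := by
    intro q hq hall
    have hall2 : ∀ c ∈ lgt m2, 3 * q + 1 = c := by
      intro c hc
      unfold lgt at hc
      rw [List.mem_filter] at hc
      obtain ⟨hc1, hc2⟩ := hc
      have hc3 := of_decide_eq_true hc2
      rcases hOk.mem c (List.mem_append_right _ (List.mem_cons_of_mem _
        (List.mem_append_left _ hc1))) with h | ⟨e, he, rfl⟩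
      · exact absurd h hc3
      · have := (hmemP e).1 he
        rw [hall e (by omega) hc1]
    have hcl := List.count_eq_length.2 hall2
    have hle : (lgt m2).count (3 * q + 1) ≤ m2.count (3 * q + 1) :=
      List.Sublist.count_le _ (List.filter_sublist)
    have := hcnt q hq
    omega
  have pos : ∀ (l : List ℕ) (a : ℕ), a ∈ l ↔ 0 < l.count a := fun l a => List.count_pos_iff.symm
  intro i hi1 hi2
  have hd3 := hcnt d (by omega)
  have he3 := hcnt (k + 1 + d) (by omega)
  have hi3 := hcnt i (by omega)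
  by_cases hA : 3 * d + 1 ∈ m1
  · exfalso
    have he1 : 3 * (k + 1 + d) + 1 ∈ m1 := by
      by_contra hne
      have h0 : m1.count (3 * (k + 1 + d) + 1) = 0 := List.count_eq_zero.2 hne
      apply nb1 hA
      rw [pos, pos]
      omega
    refine single (k + 2) le_rfl ?_
    intro j hj hjm
    by_contra hne
    have hj1 : 3 * j + 1 ∈ m1 := by
      rcases lt_trichotomy j (k + 1 + d) with h | h | h
      · exact c2a j h he1
      · rw [h]; exact he1
      · omega
    have := hcnt j hj
    rw [pos] at hj1 hjm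
    omega
  · by_cases hC : 3 * d + 1 ∈ m2
    · have he1 : 3 * (k + 1 + d) + 1 ∉ m1 := fun h => hA (c1a _ (by omega) (by omega) h)
      have he2 : 3 * (k + 1 + d) + 1 ∈ m2 := by
        rw [pos]
        have h0 : m1.count (3 * (k + 1 + d) + 1) = 0 := List.count_eq_zero.2 he1
        have h1 : m3.count (3 * (k + 1 + d) + 1) = 0 := List.count_eq_zero.2 (nb2 hC)
        omega
      rcases Nat.lt_or_ge d i with h | h
      · have hi4 : 3 * i + 1 ∉ m1 := fun h' => hA (c1a _ h (by omega) h')
        rcases Nat.lt_or_ge i (k + 1 + d) with h' | h'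
        · exact (c2b i h' he2).resolve_left hi4
        · have : i = k + 1 + d := by omega
          rw [this]; exact he2
      · have : i = d := by omega
        rw [this]; exact hC
    · exfalso
      refine single 0 (by omega) ?_
      intro j hj hjm
      by_contra hne
      rcases Nat.lt_or_ge d j with h | h
      · rcases c1b j h hj hjm with h' | h'
        · exact hA h'
        · exact hC h'
      · have : j = d := by omega
        rw [this] at hjm
        exact hC hjm

end Pool.Agent.MWV.H97
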